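import Pool.Agent.MP_b3fb72_lc.Mg.Main

open Pool.Agent.Lib.Forcing Pool.Agent.MP_b3fb72_lc

/-- There is a model of ZFC with a singular strong limit cardinal `m` of countable cofinality,
`k = m⁺ = 2 ^ m`, and a stationary set `S ⊆ k` of points of countable cofinality such that for every
ladder system on `S` some `f : k → m` is one-to-one on a tail of every ladder. -/
theorem Pool.Agent.Results.MP_b3fb72_lc.NegCon.result :
    ∃ (M : Type 1) (E : M → M → Prop), ZFC E ∧ ∃ w m k S, Om E w ∧ Arith E w m k ∧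
      (∀ a, E a S → E a k ∧ ∃ l, Lad E w a l) ∧ Stat E k S ∧
      ∀ L, Fn E S (Lad E w) L → ∃ f, Fn E k (fun _ y => E y m) f ∧
        ∀ a l, Ap E L a l → TailInj E w f l := by
  obtain ⟨U⟩ := exists_U
  exact ⟨U.M, U.E, U.zfc, _, _, _, _, U.om_om, arith U, sN_cof U, sN_stat U, kill U⟩
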